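import Mathlib
import Pool.Agent.Work.MP_fb65e7_an.Final

set_option autoImplicit false

open Pool.Agent.Work.MP_fb65e7_an

/-- There is a set `Λ ⊂ ℂ` such that `E(Λ)` has infinite defect in `L²(-π, π)` and for no set `M`
disjoint from `Λ` is `E(Λ ∪ M)` a strong M-basis of `L²(-π, π)`. -/
theorem Pool.Agent.Results.MP_fb65e7_an.NotComplementable.result :
    ∃ L : Set ℂ, HasInfiniteDefect L ∧ ¬ CanBeComplemented L := main
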